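import Pool.Agent.H705.RO.Stm

/-!
# Project RO: AL
-/

set_option autoImplicit false

namespace Pool.Agent.H772.RO

open MeasureTheory ProbabilityTheory Filter Topology Finset Pool.Agent.H705.RO

/-- the set of the points of the unit square with small argument -/
def As (δ c l : ℝ) : Set (ℝ × ℝ) := {p | nr δ (c + l * p.1 + p.2)}

theorem meas_As (h : ∀ δ : ℝ, MeasurableSet {y : ℝ | nr δ y}) (δ c l : ℝ) :
    MeasurableSet (As δ c l) := by
  have h1 : Measurable fun p : ℝ × ℝ => c + l * p.1 + p.2 := by fun_prop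
  exact h1 (h δ)

theorem arg_eq (g w s : ℕ → ℝ) (x : ℕ → ℝ × ℝ) (n : ℕ) (t : ℝ) :
    arg g w s x n t = (g n * t / (2 * Real.pi) + s n) + w n * t / (2 * Real.pi) * (x n).1 +
      (x n).2 := by
  unfold arg
  ring

theorem T_AL (hARC : P_ARC) (hPAIR : P_PAIR) : P_AL := by
  intro Ω _ P X hM g w s δ hw hδ hδ1 N
  obtain ⟨-, -, hmeas⟩ := hARC
  obtain ⟨hp1, hp2⟩ := hPAIR
  set c : ℕ → ℝ → ℝ := fun n t => g n * t / (2 * Real.pi) + s n with hc
  set l : ℕ → ℝ → ℝ := fun n t => w n * t / (2 * Real.pi) with hl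
  have hpi : 0 < 2 * Real.pi := by positivity
  have key : ∀ S : ℕ → Set (ℝ × ℝ), (∀ n, MeasurableSet (S n)) →
      P (⋂ n ∈ range N, X n ⁻¹' S n) = ∏ n ∈ range N, sq (S n) := by
    intro S hS
    rw [hM.indep.measure_inter_preimage_eq_mul (range N) (fun n _ => hS n)]
    refine prod_congr rfl fun n _ => ?_
    rw [← hM.law n, Measure.map_apply (hM.meas n) (hS n)]
  refine ⟨fun t => ?_, fun Δ t t' hΔ htt => ?_⟩
  · have e1 : {ω | ∀ n < N, nr δ (arg g w s (fun n => X n ω) n t)} =
        ⋂ n ∈ range N, X n ⁻¹' As δ (c n t) (l n t) := by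
      ext ω
      rw [Set.mem_ofPred_eq, Set.mem_iInter₂]
      refine forall_congr' fun n => ?_
      rw [mem_range, arg_eq]
      rfl
    have e2 : ∀ n ∈ range N, sq (As δ (c n t) (l n t)) = ENNReal.ofReal δ :=
      fun n _ => hp1 (c n t) (l n t) δ hδ hδ1
    rw [e1, key _ fun n => meas_As hmeas δ (c n t) (l n t), prod_congr rfl e2, prod_const,
      card_range, ENNReal.ofReal_pow hδ]
  · have e1 : {ω | (∀ n < N, nr δ (arg g w s (fun n => X n ω) n t)) ∧
        ∀ n < N, nr δ (arg g w s (fun n => X n ω) n t')} =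
        ⋂ n ∈ range N, X n ⁻¹' (As δ (c n t) (l n t) ∩ As δ (c n t') (l n t')) := by
      ext ω
      rw [Set.mem_ofPred_eq, Set.mem_iInter₂]
      constructor
      · rintro ⟨h1, h2⟩ n hn
        rw [mem_range] at hn
        have h3 := h1 n hn
        have h4 := h2 n hn
        rw [arg_eq] at h3 h4
        exact ⟨h3, h4⟩
      · intro h
        refine ⟨fun n hn => ?_, fun n hn => ?_⟩
        · rw [arg_eq]
          exact (h n (mem_range.2 hn)).1
        · rw [arg_eq]
          exact (h n (mem_range.2 hn)).2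
    rw [e1, key _ fun n => (meas_As hmeas δ (c n t) (l n t)).inter
      (meas_As hmeas δ (c n t') (l n t'))]
    have h1 : ∀ n ∈ range N, sq (As δ (c n t) (l n t) ∩ As δ (c n t') (l n t')) ≤
        ENNReal.ofReal (δ ^ 2 * (1 + 2 * Real.pi / (w n * Δ))) := by
      intro n _
      have hwn := hw n
      have habs : |l n t - l n t'| = w n * |t - t'| / (2 * Real.pi) := by
        have e : l n t - l n t' = w n / (2 * Real.pi) * (t - t') := by
          rw [hl]
          ring
        rw [e, abs_mul, abs_of_pos (div_pos hwn hpi)]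
        ring
      have hge : w n * Δ / (2 * Real.pi) ≤ |l n t - l n t'| := by
        rw [habs]
        exact div_le_div_of_nonneg_right (mul_le_mul_of_nonneg_left htt hwn.le) hpi.le
      have hpos : 0 < w n * Δ / (2 * Real.pi) := div_pos (mul_pos hwn hΔ) hpi
      have hne : l n t ≠ l n t' := by
        intro h
        rw [h, sub_self, abs_zero] at hge
        linarith
      refine (hp2 (c n t) (l n t) (c n t') (l n t') δ hne hδ hδ1).trans ?_
      refine ENNReal.ofReal_le_ofReal (mul_le_mul_of_nonneg_left ?_ (sq_nonneg δ))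
      have h2 : 1 / |l n t - l n t'| ≤ 2 * Real.pi / (w n * Δ) := by
        have h3 := one_div_le_one_div_of_le hpos hge
        rwa [one_div_div] at h3
      linarith
    refine (Finset.prod_le_prod (fun _ _ => bot_le) h1).trans (le_of_eq ?_)
    rw [← ENNReal.ofReal_prod_of_nonneg, prod_mul_distrib, prod_const, card_range, ← pow_mul]
    intro n _
    have hwn := hw n
    positivity

end Pool.Agent.H772.RO
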